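import Mathlib

/-!
# Monotone bases of `E ⊕_∞ H`

`E` finite-dimensional without norm one projections onto hyperplanes, `H` an inner product space:
the space `E × H` (supremum norm) has no monotone basis.
-/

set_option autoImplicit false

open Filter Topology

namespace Pool.Agent.Y249.MB

variable {𝕜 : Type} [RCLike 𝕜]

/-- `e` is a monotone Schauder basis of `X`. -/
def MonoBasis (𝕜 : Type) [RCLike 𝕜] {X : Type} [NormedAddCommGroup X] [NormedSpace 𝕜 X]
    (e : ℕ → X) : Prop :=
  (∀ x : X, ∃! a : ℕ → 𝕜, Tendsto (fun n : ℕ => ∑ i ∈ Finset.range n, a i • e i) atTop (𝓝 x)) ∧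
  (∀ (a : ℕ → 𝕜) (n m : ℕ), n ≤ m →
    ‖∑ i ∈ Finset.range n, a i • e i‖ ≤ ‖∑ i ∈ Finset.range m, a i • e i‖)

/-- There is no norm one projection of `E` onto a hyperplane. -/
def NoHyp (𝕜 E : Type) [RCLike 𝕜] [NormedAddCommGroup E] [NormedSpace 𝕜 E] : Prop :=
  ∀ (f : E →ₗ[𝕜] 𝕜) (x : E), f x = 1 → ∃ y : E, ‖y‖ < ‖y - f y • x‖

section coef

variable {X : Type} [NormedAddCommGroup X] [NormedSpace 𝕜 X]

/-- The coefficient functionals. -/
theorem exists_coef {e : ℕ → X} (h : MonoBasis 𝕜 e) :
    ∃ c : ℕ → X →ₗ[𝕜] 𝕜,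
      (∀ x, Tendsto (fun n : ℕ => ∑ i ∈ Finset.range n, c i x • e i) atTop (𝓝 x)) ∧
      (∀ (a : ℕ → 𝕜) (x : X), Tendsto (fun n : ℕ => ∑ i ∈ Finset.range n, a i • e i) atTop (𝓝 x) →
        ∀ i, c i x = a i) ∧
      (∀ n x, ‖∑ i ∈ Finset.range n, c i x • e i‖ ≤ ‖x‖) := by
  choose a ha hu using h.1
  have hadd : ∀ x y, a (x + y) = a x + a y := by
    intro x y
    symm
    apply hu
    have := (ha x).add (ha y)
    refine this.congr fun n => ?_
    rw [← Finset.sum_add_distrib]
    exact Finset.sum_congr rfl fun i _ => by simp [add_smul]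
  have hsmul : ∀ (t : 𝕜) x, a (t • x) = t • a x := by
    intro t x
    symm
    apply hu
    have := (ha x).const_smul t
    refine this.congr fun n => ?_
    rw [Finset.smul_sum]
    exact Finset.sum_congr rfl fun i _ => by simp [mul_smul]
  refine ⟨fun i => ⟨⟨fun x => a x i, fun x y => by simp [hadd]⟩, fun t x => by simp [hsmul]⟩,
    ha, ?_, ?_⟩
  · intro b x hb i
    have := hu x b hb
    simp [this]
  · intro n x
    refine le_of_tendsto_of_tendsto tendsto_const_nhds (ha x).norm ?_
    filter_upwards [eventually_ge_atTop n] with m hm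
    exact h.2 (a x) n m hm

end coef

section main

variable {E Z : Type} [NormedAddCommGroup E] [NormedSpace 𝕜 E] [FiniteDimensional 𝕜 E]
  [NormedAddCommGroup Z] [InnerProductSpace 𝕜 Z]

/-- `E ⊕_∞ Z` has no monotone basis. -/
theorem no_mono [Nontrivial E] (hE : NoHyp 𝕜 E) (e : ℕ → E × Z) : ¬ MonoBasis 𝕜 e := by
  intro hmono
  obtain ⟨c, hc, hu, hle⟩ := exists_coef hmono
  set d : ℕ := Module.finrank 𝕜 E with hd
  have hd1 : 0 < d := Module.finrank_pos
  -- the partial sum operators
  set S : ℕ → (E × Z) →ₗ[𝕜] (E × Z) := fun n =>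
    ∑ i ∈ Finset.range n, (c i).smulRight (e i) with hS
  have hSapp : ∀ n x, S n x = ∑ i ∈ Finset.range n, c i x • e i := by
    intro n x
    simp [hS, LinearMap.sum_apply]
  have hSle : ∀ n x, ‖S n x‖ ≤ ‖x‖ := fun n x => by rw [hSapp]; exact hle n x
  have hSsucc : ∀ n x, S (n + 1) x = S n x + c n x • e n := by
    intro n x
    rw [hSapp, hSapp, Finset.sum_range_succ]
  have hce : ∀ i j, c i (e j) = if i = j then 1 else 0 := by
    intro i j
    have := hu (fun i => if i = j then 1 else 0) (e j) ?_ i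
    · simpa using this
    · refine tendsto_const_nhds.congr' ?_
      filter_upwards [eventually_gt_atTop j] with n hn
      rw [Finset.sum_eq_single j]
      · simp
      · intro b _ hb
        simp [hb]
      · intro h
        exact absurd (Finset.mem_range.2 hn) h
  have hSe : ∀ n j, j < n → S n (e j) = e j := by
    intro n j hj
    rw [hSapp, Finset.sum_eq_single j]
    · simp [hce]
    · intro b _ hb
      simp [hce, hb]
    · intro h
      exact absurd (Finset.mem_range.2 hj) h
  have hSe0 : ∀ n j, n ≤ j → S n (e j) = 0 := by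
    intro n j hj
    rw [hSapp]
    apply Finset.sum_eq_zero
    intro b hb
    have : b < n := Finset.mem_range.1 hb
    rw [hce, if_neg (by omega), zero_smul]
  have hSS : ∀ n m x, m ≤ n → S n (S m x) = S m x := by
    intro n m x hmn
    rw [hSapp m, map_sum]
    refine Finset.sum_congr rfl fun i hi => ?_
    rw [map_smul, hSe n i (lt_of_lt_of_le (Finset.mem_range.1 hi) hmn)]
  have hclt : ∀ n m x, n < m → c n (S m x) = c n x := by
    intro n m x hnm
    rw [hSapp m, map_sum, Finset.sum_eq_single n]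
    · rw [map_smul, hce, if_pos rfl, smul_eq_mul, mul_one]
    · intro b _ hb
      rw [map_smul, hce, if_neg (Ne.symm hb), smul_zero]
    · intro h
      exact absurd (Finset.mem_range.2 hnm) h
  have hSS' : ∀ n m x, n ≤ m → S n (S m x) = S n x := by
    intro n m x hnm
    rw [hSapp n, hSapp n]
    refine Finset.sum_congr rfl fun i hi => ?_
    rw [hclt i m x (lt_of_lt_of_le (Finset.mem_range.1 hi) hnm)]
  -- norm in the product
  have hfst : ∀ y : E × Z, ‖y.1‖ ≤ ‖y‖ := fun y => norm_fst_le y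
  have hsnd : ∀ y : E × Z, ‖y.2‖ ≤ ‖y‖ := fun y => norm_snd_le y
  have hn0 : ∀ x : E, ‖((x, 0) : E × Z)‖ = ‖x‖ := fun x => by
    rw [Prod.norm_def]; simp
  -- Step 1
  have step1 : ∀ n, d + 1 ≤ n → ∃ v : Z, ‖v‖ = 1 ∧ S n (0, v) = (0, v) := by
    intro n hn
    set L : (Fin n → 𝕜) →ₗ[𝕜] E :=
      ∑ i : Fin n, (LinearMap.proj i : (Fin n → 𝕜) →ₗ[𝕜] 𝕜).smulRight (e i).1 with hL
    have hLapp : ∀ a, L a = ∑ i : Fin n, a i • (e i).1 := by
      intro a
      simp [hL, LinearMap.sum_apply]
    have hker : LinearMap.ker L ≠ ⊥ := by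
      apply LinearMap.ker_ne_bot_of_finrank_lt
      rw [Module.finrank_fin_fun]
      omega
    obtain ⟨a, ha, ha0⟩ := Submodule.exists_mem_ne_zero_of_ne_bot hker
    rw [LinearMap.mem_ker, hLapp] at ha
    set y : E × Z := ∑ i : Fin n, a i • e i with hy
    have hy1 : y.1 = 0 := by
      rw [← ha, hy]
      simp [Prod.fst_sum]
    have hSy : S n y = y := by
      rw [hy, map_sum]
      refine Finset.sum_congr rfl fun i _ => ?_
      rw [map_smul, hSe n i i.2]
    have hy0 : y ≠ 0 := by
      intro h0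
      apply ha0
      funext j
      have : c j y = a j := by
        rw [hy, map_sum, Finset.sum_eq_single j]
        · rw [map_smul, hce, if_pos rfl, smul_eq_mul, mul_one]
        · intro b _ hb
          rw [map_smul, hce, if_neg (fun h => hb (Fin.ext h.symm)), smul_zero]
        · intro h
          exact absurd (Finset.mem_univ _) h
      rw [h0, map_zero] at this
      simpa using this.symm
    have hy2 : y.2 ≠ 0 := by
      intro h
      exact hy0 (Prod.ext hy1 h)
    have hyy : y = (0, y.2) := Prod.ext hy1 rfl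
    refine ⟨((‖y.2‖⁻¹ : ℝ) : 𝕜) • y.2, ?_, ?_⟩
    · rw [norm_smul, RCLike.norm_ofReal, abs_of_nonneg (by positivity),
        inv_mul_cancel₀ (norm_ne_zero_iff.2 hy2)]
    · have : ((0, ((‖y.2‖⁻¹ : ℝ) : 𝕜) • y.2) : E × Z) = ((‖y.2‖⁻¹ : ℝ) : 𝕜) • y := by
        rw [hyy]
        simp
      rw [this, map_smul, hSy]
  -- Step 2
  have step2 : ∀ n, d + 1 ≤ n → ∀ x : E, (S n (x, 0)).2 = 0 := by
    intro n hn
    obtain ⟨v, hv, hSv⟩ := step1 n hn
    have small : ∀ x : E, ‖x‖ ≤ 1 → (S n (x, 0)).2 = 0 := by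
      intro x hx
      set w := (S n (x, 0)).2 with hw
      have h1 : ‖v + w‖ ≤ 1 := by
        have e1 : ((x, v) : E × Z) = (x, 0) + (0, v) := by simp
        have e2 : (S n (x, v)).2 = v + w := by
          rw [e1, map_add, hSv, Prod.snd_add, add_comm]
        rw [← e2]
        refine (hsnd _).trans ((hSle n _).trans ?_)
        rw [Prod.norm_def]
        exact max_le hx hv.le
      have h2 : ‖v - w‖ ≤ 1 := by
        have e1 : ((-x, v) : E × Z) = (0, v) - (x, 0) := by simp
        have e2 : (S n (-x, v)).2 = v - w := by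
          rw [e1, map_sub, hSv, Prod.snd_sub]
        rw [← e2]
        refine (hsnd _).trans ((hSle n _).trans ?_)
        rw [Prod.norm_def]
        exact max_le (by simpa using hx) hv.le
      have h3 := parallelogram_law_with_norm 𝕜 v w
      have h4 : ‖w‖ = 0 := by
        have := norm_nonneg w
        nlinarith [norm_nonneg (v + w), norm_nonneg (v - w)]
      exact norm_eq_zero.1 h4
    intro x
    have hpos : 0 < ‖x‖ + 1 := by positivity
    have h1 := small ((((‖x‖ + 1)⁻¹ : ℝ) : 𝕜) • x) (by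
      rw [norm_smul, RCLike.norm_ofReal, abs_of_nonneg (by positivity), inv_mul_le_iff₀ hpos]
      linarith)
    have e1 : (((((‖x‖ + 1)⁻¹ : ℝ) : 𝕜) • x, (0 : Z)) : E × Z) =
        ((((‖x‖ + 1)⁻¹ : ℝ) : 𝕜)) • ((x, 0) : E × Z) := by simp
    rw [e1, map_smul, Prod.smul_snd, smul_eq_zero] at h1
    rcases h1 with h1 | h1
    · exfalso
      have : ((‖x‖ + 1)⁻¹ : ℝ) = 0 := by exact_mod_cast h1
      exact (inv_pos.2 hpos).ne' this
    · exact h1
  -- Step 3: eventually the identity on `E`
  set W : ℕ → Submodule 𝕜 E := fun n =>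
    LinearMap.ker ((S n).comp (LinearMap.inl 𝕜 E Z) - LinearMap.inl 𝕜 E Z) with hW
  have hWmem : ∀ n x, x ∈ W n ↔ S n (x, 0) = (x, 0) := by
    intro n x
    rw [hW]
    simp only [LinearMap.mem_ker, LinearMap.sub_apply, LinearMap.comp_apply, LinearMap.inl_apply,
      sub_eq_zero]
  have hWmono : Monotone W := by
    intro n m hnm x hx
    rw [hWmem] at hx ⊢
    rw [← hx, hSS m n _ hnm]
  obtain ⟨N, hN⟩ := monotone_stabilizes_iff_noetherian.2
    (inferInstance : IsNoetherian 𝕜 E) ⟨W, hWmono⟩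
  have hWtop : ∀ n, max N (d + 1) ≤ n → ∀ x : E, S n (x, 0) = (x, 0) := by
    have hA : ∀ n, d + 1 ≤ n → ∀ x : E, (S n (x, 0)).1 ∈ W n := by
      intro n hn x
      rw [hWmem]
      have h1 : ((S n (x, 0)).1, (0 : Z)) = S n (x, 0) := by
        apply Prod.ext
        · rfl
        · exact (step2 n hn x).symm
      rw [h1, hSS n n _ le_rfl]
    have hx : ∀ x : E, x ∈ W N := by
      intro x
      have hcl : IsClosed (W N : Set E) := Submodule.closed_of_finiteDimensional _
      have ht : Tendsto (fun n => (S n (x, 0)).1) atTop (𝓝 x) := by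
        have h1 := hc (x, 0)
        have h2 : Tendsto (fun y : E × Z => y.1) (𝓝 (x, 0)) (𝓝 x) := continuous_fst.tendsto _
        refine (h2.comp h1).congr fun n => ?_
        simp only [Function.comp_apply, hSapp]
      refine hcl.mem_of_tendsto ht ?_
      filter_upwards [eventually_ge_atTop (max N (d + 1))] with n hn
      have h3 := hA n ((le_max_right _ _).trans hn) x
      have h4 : W N = W n := hN n ((le_max_left _ _).trans hn)
      rw [h4]
      exact h3
    intro n hn x
    have h4 : W N = W n := hN n ((le_max_left _ _).trans hn)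
    rw [← hWmem, ← h4]
    exact hx x
  -- descending
  have step3 : ∀ k n, d + 1 ≤ n → max N (d + 1) ≤ n + k → ∀ x : E, S n (x, 0) = (x, 0) := by
    intro k
    induction k with
    | zero =>
      intro n _ hn
      exact hWtop n hn
    | succ k ih =>
      intro n hn hk
      have hsucc := ih (n + 1) (by omega) (by omega)
      by_contra hcon
      push Not at hcon
      obtain ⟨x0, hx0⟩ := hcon
      have h1 : ∀ x : E, ((x, 0) : E × Z) = S n (x, 0) + c n (x, 0) • e n := by
        intro x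
        rw [← hSsucc, hsucc]
      have hc0 : c n (x0, 0) ≠ 0 := by
        intro h
        have := h1 x0
        rw [h, zero_smul, add_zero] at this
        exact hx0 this.symm
      have he2 : (e n).2 = 0 := by
        have := congrArg Prod.snd (h1 x0)
        rw [Prod.snd_add, step2 n hn x0, zero_add, Prod.smul_snd] at this
        have h2 := this.symm
        rw [smul_eq_zero] at h2
        exact h2.resolve_left hc0
      have hen : e n = ((e n).1, 0) := Prod.ext rfl he2
      obtain ⟨y, hy⟩ := hE ((c n).comp (LinearMap.inl 𝕜 E Z)) (e n).1 (by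
        rw [LinearMap.comp_apply, LinearMap.inl_apply, ← hen, hce, if_pos rfl])
      have h3 : (S n (y, 0)).1 = y - ((c n).comp (LinearMap.inl 𝕜 E Z)) y • (e n).1 := by
        have := congrArg Prod.fst (h1 y)
        rw [Prod.fst_add, Prod.smul_fst] at this
        rw [LinearMap.comp_apply, LinearMap.inl_apply]
        exact eq_sub_of_add_eq this.symm
      have h4 : ‖(S n (y, 0)).1‖ ≤ ‖y‖ := (hfst _).trans ((hSle n _).trans (hn0 y).le)
      rw [h3] at h4
      exact absurd h4 (not_le.2 hy)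
  have top : ∀ x : E, S (d + 1) (x, 0) = (x, 0) :=
    step3 (max N (d + 1)) (d + 1) le_rfl (by omega)
  -- Step 4
  set g : E := (e d).1 with hg
  set z0 : Z := (e d).2 with hz0
  have hed : e d = (g, z0) := rfl
  set f : E →ₗ[𝕜] 𝕜 := (c d).comp (LinearMap.inl 𝕜 E Z) with hf
  have hfapp : ∀ x, f x = c d (x, 0) := fun x => rfl
  set γ : 𝕜 := c d (0, z0) with hγ
  have hSz : S (d + 1) (0, z0) = (0, z0) := by
    have e1 : ((0, z0) : E × Z) = e d - (g, 0) := by rw [hed]; simp
    rw [e1, map_sub, hSe (d + 1) d (by omega), top]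
  have hsum : f g + γ = 1 := by
    have e1 : ((g, z0) : E × Z) = (g, 0) + (0, z0) := by simp
    have h1 : c d (g, z0) = 1 := by rw [← hed, hce, if_pos rfl]
    rw [hfapp, hγ, ← map_add, ← e1, h1]
  have hSd : ∀ (x : E) (t : 𝕜), S d (x, t • z0) =
      (x - (f x + t * γ) • g, t • z0 - (f x + t * γ) • z0) := by
    intro x t
    have e1 : ((x, t • z0) : E × Z) = (x, 0) + t • (0, z0) := by simp
    have h1 : S (d + 1) (x, t • z0) = (x, t • z0) := by
      rw [e1, map_add, map_smul, top, hSz]
    have h2 : c d (x, t • z0) = f x + t * γ := by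
      rw [e1, map_add, map_smul, hfapp, smul_eq_mul]
    have h3 := hSsucc d (x, t • z0)
    rw [h1, h2, hed] at h3
    have h4 : S d (x, t • z0) = (x, t • z0) - (f x + t * γ) • (g, z0) := eq_sub_of_add_eq h3.symm
    rw [h4]
    simp
  have hstar : ∀ (x : E) (t : 𝕜), ‖t‖ * ‖z0‖ ≤ ‖x‖ → ‖x - (f x + t * γ) • g‖ ≤ ‖x‖ := by
    intro x t ht
    have h1 := (hfst _).trans (hSle d (x, t • z0))
    rw [hSd] at h1
    refine h1.trans ?_
    rw [Prod.norm_def, norm_smul]
    exact max_le le_rfl ht
  by_cases hg0 : g = 0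
  · -- Step 6
    have hSd0 : ∀ x : E, S d (x, 0) = (x, -(f x) • z0) := by
      intro x
      have := hSd x 0
      rw [zero_smul, zero_mul, add_zero, hg0, smul_zero, sub_zero, zero_sub, ← neg_smul] at this
      exact this
    set T : E →ₗ[𝕜] (Fin d → 𝕜) :=
      LinearMap.pi (fun i : Fin d => (c i).comp (LinearMap.inl 𝕜 E Z)) with hT
    have hTinj : Function.Injective T := by
      rw [← LinearMap.ker_eq_bot, LinearMap.ker_eq_bot']
      intro x hx
      have h1 : S d (x, 0) = 0 := by
        rw [hSapp]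
        apply Finset.sum_eq_zero
        intro i hi
        have := congrFun hx ⟨i, Finset.mem_range.1 hi⟩
        have h2 : c i (x, 0) = 0 := by simpa [hT] using this
        rw [h2, zero_smul]
      rw [hSd0] at h1
      exact congrArg Prod.fst h1
    have hTsurj : Function.Surjective T := by
      rw [← LinearMap.injective_iff_surjective_of_finrank_eq_finrank]
      · exact hTinj
      · rw [Module.finrank_fin_fun]
    obtain ⟨x', hx'⟩ := hTsurj (fun i => if (i : ℕ) = d - 1 then 1 else 0)
    have hcx : ∀ i, i < d → c i (x', 0) = if i = d - 1 then 1 else 0 := by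
      intro i hi
      have := congrFun hx' ⟨i, hi⟩
      simpa [hT] using this
    have hSx : S d (x', 0) = e (d - 1) := by
      rw [hSapp, Finset.sum_eq_single (d - 1)]
      · rw [hcx _ (by omega), if_pos rfl, one_smul]
      · intro b hb hb'
        rw [hcx b (Finset.mem_range.1 hb), if_neg hb', zero_smul]
      · intro h
        exact absurd (Finset.mem_range.2 (by omega)) h
    obtain ⟨y, hy⟩ := hE ((c (d - 1)).comp (LinearMap.inl 𝕜 E Z)) x' (by
      rw [LinearMap.comp_apply, LinearMap.inl_apply, hcx _ (by omega), if_pos rfl])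
    have h1 := hSsucc (d - 1) (y, 0)
    rw [show d - 1 + 1 = d by omega] at h1
    have h2 : (S (d - 1) (y, 0)).1 = y - ((c (d - 1)).comp (LinearMap.inl 𝕜 E Z)) y • x' := by
      have h3 := congrArg Prod.fst h1
      rw [Prod.fst_add, Prod.smul_fst, ← hSx, hSd0, hSd0] at h3
      rw [LinearMap.comp_apply, LinearMap.inl_apply]
      exact eq_sub_of_add_eq h3.symm
    have h4 : ‖(S (d - 1) (y, 0)).1‖ ≤ ‖y‖ := (hfst _).trans ((hSle _ _).trans (hn0 y).le)
    rw [h2] at h4
    exact absurd h4 (not_le.2 hy)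
  · -- `g ≠ 0`
    have hgpos : 0 < ‖g‖ := norm_pos_iff.2 hg0
    by_cases hγ0 : γ = 0
    · rw [hγ0, add_zero] at hsum
      obtain ⟨y, hy⟩ := hE f g hsum
      have h1 := hstar y 0 (by simp)
      rw [zero_mul, add_zero] at h1
      exact absurd h1 (not_le.2 hy)
    · have hγpos : 0 < ‖γ‖ := norm_pos_iff.2 hγ0
      have hfg : f g ≠ 0 := by
        intro h0
        set r : ℝ := ‖g‖ / (‖z0‖ + 1) with hr
        have hr0 : 0 < r := by positivity
        have hrz : r * ‖z0‖ ≤ ‖g‖ := by
          rw [hr, div_mul_eq_mul_div, div_le_iff₀ (by positivity)]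
          nlinarith [norm_nonneg z0]
        -- `t = - (r / ‖γ‖) conj γ`
        set t : 𝕜 := -(((r / ‖γ‖ : ℝ) : 𝕜) * (starRingEnd 𝕜) γ) with ht
        have htn : ‖t‖ = r := by
          rw [ht, norm_neg, norm_mul, RCLike.norm_ofReal, abs_of_nonneg (by positivity),
            RCLike.norm_conj, div_mul_cancel₀ _ hγpos.ne']
        have htγ : t * γ = -((r * ‖γ‖ : ℝ) : 𝕜) := by
          rw [ht, neg_mul, mul_assoc, RCLike.conj_mul]
          congr 1
          rw [← RCLike.ofReal_pow, ← RCLike.ofReal_mul]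
          congr 1
          field_simp
        have h1 := hstar g t (by rw [htn]; exact hrz)
        rw [h0, zero_add, htγ, neg_smul, sub_neg_eq_add] at h1
        have h2 : g + ((r * ‖γ‖ : ℝ) : 𝕜) • g = ((1 + r * ‖γ‖ : ℝ) : 𝕜) • g := by
          rw [RCLike.ofReal_add, add_smul, RCLike.ofReal_one, one_smul]
        rw [h2, norm_smul, RCLike.norm_ofReal, abs_of_nonneg (by positivity)] at h1
        have h3 : 0 < r * ‖γ‖ := by positivity
        nlinarith
      obtain ⟨x, hx⟩ := hE ((f g)⁻¹ • f) g (by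
        rw [LinearMap.smul_apply, smul_eq_mul, inv_mul_cancel₀ hfg])
      set s : 𝕜 := ((f g)⁻¹ • f) x with hs
      set h : E := x - s • g with hh
      have hfh : f h = 0 := by
        rw [hh, map_sub, map_smul, hs, LinearMap.smul_apply, smul_eq_mul, smul_eq_mul]
        field_simp
        ring
      have hxh : x = h + s • g := by rw [hh]; abel
      have hhpos : 0 < ‖h‖ := lt_of_le_of_lt (norm_nonneg x) hx
      have hs0 : s ≠ 0 := by
        intro h0
        rw [hxh, h0, zero_smul, add_zero] at hx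
        exact lt_irrefl _ hx
      have hspos : 0 < ‖s‖ := norm_pos_iff.2 hs0
      set κ : ℝ := ‖h‖ * ‖γ‖ / (‖s‖ * (‖z0‖ + 1)) with hκ
      have hκ0 : 0 < κ := by positivity
      set t : 𝕜 := ((κ : ℝ) : 𝕜) * s / γ with ht
      have htn : ‖t‖ * ‖z0‖ ≤ ‖h‖ := by
        rw [ht, norm_div, norm_mul, RCLike.norm_ofReal, abs_of_nonneg hκ0.le, hκ]
        have e1 : ‖h‖ * ‖γ‖ / (‖s‖ * (‖z0‖ + 1)) * ‖s‖ / ‖γ‖ * ‖z0‖ =
            ‖h‖ * (‖z0‖ / (‖z0‖ + 1)) := by
          field_simp
        rw [e1]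
        have e2 : ‖z0‖ / (‖z0‖ + 1) ≤ 1 := by
          rw [div_le_one (by positivity)]
          linarith
        nlinarith
      have htγ : t * γ = ((κ : ℝ) : 𝕜) * s := by
        rw [ht, div_mul_cancel₀ _ hγ0]
      have h1 := hstar h t htn
      rw [hfh, zero_add, htγ] at h1
      -- convexity
      have h2 : ((1 + κ : ℝ) : 𝕜) • h = ((κ : ℝ) : 𝕜) • x + (h - (((κ : ℝ) : 𝕜) * s) • g) := by
        rw [hxh, RCLike.ofReal_add, RCLike.ofReal_one, add_smul, one_smul, smul_add, smul_smul]
        abel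
      have h3 : (1 + κ) * ‖h‖ ≤ κ * ‖x‖ + ‖h‖ := by
        calc (1 + κ) * ‖h‖ = ‖((1 + κ : ℝ) : 𝕜) • h‖ := by
              rw [norm_smul, RCLike.norm_ofReal, abs_of_nonneg (by positivity)]
          _ = ‖((κ : ℝ) : 𝕜) • x + (h - (((κ : ℝ) : 𝕜) * s) • g)‖ := by rw [h2]
          _ ≤ ‖((κ : ℝ) : 𝕜) • x‖ + ‖h - (((κ : ℝ) : 𝕜) * s) • g‖ := norm_add_le _ _
          _ ≤ κ * ‖x‖ + ‖h‖ := by
              rw [norm_smul, RCLike.norm_ofReal, abs_of_nonneg hκ0.le]
              linarith
      nlinarith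

end main

end Pool.Agent.Y249.MB
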