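import Pool.Agent.Y249.MB.Poly

/-!
# No norm one projections onto hyperplanes
-/

set_option autoImplicit false

open Filter Topology Finset

namespace Pool.Agent.Y249.MB

variable {𝕜 : Type} [RCLike 𝕜]


/-- Elements vanishing at four points. -/
theorem zero_of_four (y : E4 𝕜) (P : Finset (Fin 7)) (hP : 4 ≤ P.card)
    (h : ∀ i ∈ P, evi i y = 0) : y = 0 := by
  by_contra hy
  have h1 := mds' y hy
  have h2 : P ⊆ univ.filter (fun i : Fin 7 => evi i y = 0) := fun i hi =>
    Finset.mem_filter.2 ⟨Finset.mem_univ _, h i hi⟩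
  have h3 := Finset.card_le_card h2
  omega

/-- Isotropic subspaces. -/
theorem iso (c : Fin 7 → 𝕜) (H : Submodule 𝕜 (E4 𝕜)) (hH : 3 ≤ Module.finrank 𝕜 H)
    (h3 : 3 ≤ (univ.filter (fun i : Fin 7 => c i ≠ 0)).card)
    (h5 : (univ.filter (fun i : Fin 7 => c i ≠ 0)).card ≤ 5)
    (h : ∀ z ∈ H, ∀ w ∈ H, ∑ i, c i * evi i z * evi i w = 0) : False := by
  classical
  set S : Finset (Fin 7) := univ.filter (fun i : Fin 7 => c i ≠ 0) with hS
  have hSmem : ∀ i, i ∈ S ↔ c i ≠ 0 := fun i => by rw [hS, Finset.mem_filter]; simp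
  -- the restriction map
  set R : H →ₗ[𝕜] (S → 𝕜) := LinearMap.pi fun i : S => (evi (i : Fin 7)).comp H.subtype with hR
  have hRapp : ∀ z i, R z i = evi (i : Fin 7) (z : E4 𝕜) := fun z i => rfl
  set V : Submodule 𝕜 (S → 𝕜) := LinearMap.range R with hV
  have hrk : Module.finrank 𝕜 V + Module.finrank 𝕜 (LinearMap.ker R) = Module.finrank 𝕜 H :=
    LinearMap.finrank_range_add_finrank_ker R
  -- the pairing
  set Θ : (S → 𝕜) →ₗ[𝕜] Module.Dual 𝕜 (S → 𝕜) :=
    ∑ i : S, (LinearMap.proj i : (S → 𝕜) →ₗ[𝕜] 𝕜).smulRight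
      (c (i : Fin 7) • (LinearMap.proj i : (S → 𝕜) →ₗ[𝕜] 𝕜)) with hΘ
  have hΘapp : ∀ u v, Θ u v = ∑ i : S, c (i : Fin 7) * u i * v i := by
    intro u v
    rw [hΘ, LinearMap.sum_apply, LinearMap.sum_apply]
    refine Finset.sum_congr rfl fun i _ => ?_
    simp only [LinearMap.smulRight_apply, LinearMap.smul_apply, LinearMap.proj_apply, smul_eq_mul]
    ring
  have hΘinj : Function.Injective Θ := by
    rw [← LinearMap.ker_eq_bot, LinearMap.ker_eq_bot']
    intro u hu
    funext i
    have h1 : Θ u (Pi.single i 1) = 0 := by rw [hu]; rfl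
    rw [hΘapp, Finset.sum_eq_single i] at h1
    · rw [Pi.single_eq_same, mul_one] at h1
      exact (mul_eq_zero.1 h1).resolve_left ((hSmem i).1 i.2)
    · intro b _ hb
      rw [Pi.single_eq_of_ne hb, mul_zero]
    · intro h'
      exact absurd (Finset.mem_univ _) h'
  have hsub : V.map Θ ≤ V.dualAnnihilator := by
    rintro _ ⟨u, ⟨z, rfl⟩, rfl⟩
    rw [Submodule.mem_dualAnnihilator]
    rintro _ ⟨w, rfl⟩
    rw [hΘapp]
    have h1 := h z z.2 w w.2
    have h2 : ∑ i, c i * evi i (z : E4 𝕜) * evi i (w : E4 𝕜) =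
        ∑ i ∈ S, c i * evi i (z : E4 𝕜) * evi i (w : E4 𝕜) := by
      rw [Finset.sum_subset (Finset.subset_univ S)]
      intro i _ hi
      rw [hSmem, not_not] at hi
      rw [hi]
      ring
    rw [h2, ← Finset.sum_coe_sort] at h1
    exact h1
  have hfr : Module.finrank 𝕜 V ≤ Module.finrank 𝕜 V.dualAnnihilator := by
    have h1 : Module.finrank 𝕜 (V.map Θ) = Module.finrank 𝕜 V :=
      (Submodule.equivMapOfInjective Θ hΘinj V).finrank_eq.symm
    rw [← h1]
    exact Submodule.finrank_mono hsub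
  have hann := Subspace.finrank_add_finrank_dualAnnihilator_eq V
  have hcard : Module.finrank 𝕜 (S → 𝕜) = S.card := by
    rw [Module.finrank_fintype_fun_eq_card, Fintype.card_coe]
  rw [hcard] at hann
  -- the kernel
  have hker : Module.finrank 𝕜 (LinearMap.ker R) + S.card ≤ 4 ∨
      Module.finrank 𝕜 (LinearMap.ker R) = 0 := by
    have hz : ∀ z ∈ LinearMap.ker R, ∀ i ∈ S, evi i (z : E4 𝕜) = 0 := by
      intro z hz i hi
      have := congrFun (LinearMap.mem_ker.1 hz) ⟨i, hi⟩
      rwa [hRapp] at this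
    rcases Nat.lt_or_ge S.card 4 with h4 | h4
    · left
      have hS3 : S.card = 3 := by omega
      obtain ⟨P, hSP, hP⟩ := Finset.exists_superset_card_eq (s := S) (n := 4) (by omega)
        (by rw [Fintype.card_fin]; norm_num)
      obtain ⟨p, hp, hpS⟩ : ∃ p ∈ P, p ∉ S := by
        by_contra hcon
        push Not at hcon
        have := Finset.card_le_card (fun x hx => hcon x hx : P ⊆ S)
        omega
      have hPS : P = insert p S := by
        symm
        apply Finset.eq_of_subset_of_card_le (Finset.insert_subset hp hSP)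
        rw [Finset.card_insert_of_notMem hpS]
        omega
      have hQinj : Function.Injective
          (((evi p).comp H.subtype).comp (LinearMap.ker R).subtype) := by
        intro z z' hzz'
        have hd : evi p ((z : H) : E4 𝕜) = evi p ((z' : H) : E4 𝕜) := hzz'
        have h1 : ((z : H) : E4 𝕜) - ((z' : H) : E4 𝕜) = 0 := by
          apply zero_of_four _ P (by omega)
          intro i hi
          rw [hPS, Finset.mem_insert] at hi
          rw [map_sub, sub_eq_zero]
          rcases hi with rfl | hi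
          · exact hd
          · rw [hz z z.2 i hi, hz z' z'.2 i hi]
        exact Subtype.ext (Subtype.ext (sub_eq_zero.1 h1))
      have h1 := LinearMap.finrank_le_finrank_of_injective hQinj
      rw [Module.finrank_self] at h1
      omega
    · right
      have hbot : LinearMap.ker R = ⊥ := by
        rw [LinearMap.ker_eq_bot']
        intro z hz'
        exact Subtype.ext (zero_of_four _ S h4 (hz z hz'))
      rw [hbot, finrank_bot]
  omega

/-- The combinatorial core. -/
theorem core (f : E4 𝕜 →ₗ[𝕜] 𝕜) (x : E4 𝕜) (hx : x ≠ 0)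
    (h : ∀ y : E4 𝕜, f y = 0 → ∑ i, evi i x * evi i y * starRingEnd 𝕜 (evi i y) * starRingEnd 𝕜 (evi i y) = 0) :
    False := by
  classical
  set H : Submodule 𝕜 (E4 𝕜) := LinearMap.ker f with hH
  have hHr : 3 ≤ Module.finrank 𝕜 H := by
    have h1 : Module.finrank 𝕜 (LinearMap.range f) + Module.finrank 𝕜 H = 4 := by
      rw [← finrank_E4 (𝕜 := 𝕜)]
      exact LinearMap.finrank_range_add_finrank_ker f
    have h2 : Module.finrank 𝕜 (LinearMap.range f) ≤ 1 := by
      have := Submodule.finrank_le (LinearMap.range f)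
      rwa [Module.finrank_self] at this
    omega
  have hT := polar (fun i => evi i x) H (fun y hy => h y (LinearMap.mem_ker.1 hy))
  set Z0 : Finset (Fin 7) := univ.filter (fun i : Fin 7 => evi i x = 0) with hZ0
  have hZ0c : Z0.card ≤ 3 := mds' x hx
  -- two points
  obtain ⟨P, hPc, hP⟩ : ∃ P : Finset (Fin 7), P.card = 2 ∧ (Z0 ⊆ P ∨ P ⊆ Z0) := by
    rcases Nat.lt_or_ge Z0.card 2 with h2 | h2
    · obtain ⟨P, h1, h3⟩ := Finset.exists_superset_card_eq (s := Z0) (n := 2) (by omega)
        (by rw [Fintype.card_fin]; norm_num)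
      exact ⟨P, h3, Or.inl h1⟩
    · obtain ⟨P, h1, h3⟩ := Finset.exists_subset_card_eq h2
      exact ⟨P, h3, Or.inr h1⟩
  -- an element of `H` vanishing on `P`
  obtain ⟨y, hyH, hyP, hy0⟩ : ∃ y : E4 𝕜, y ∈ H ∧ (∀ i ∈ P, evi i y = 0) ∧ y ≠ 0 := by
    set L : E4 𝕜 →ₗ[𝕜] 𝕜 × (P → 𝕜) :=
      f.prod (LinearMap.pi fun i : P => evi (i : Fin 7)) with hL
    have hk : LinearMap.ker L ≠ ⊥ := by
      apply LinearMap.ker_ne_bot_of_finrank_lt
      rw [Module.finrank_prod, Module.finrank_self, Module.finrank_fintype_fun_eq_card,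
        Fintype.card_coe, hPc, finrank_E4]
      norm_num
    obtain ⟨y, hy, hy0⟩ := Submodule.exists_mem_ne_zero_of_ne_bot hk
    rw [LinearMap.mem_ker] at hy
    refine ⟨y, LinearMap.mem_ker.2 (congrArg Prod.fst hy), fun i hi => ?_, hy0⟩
    exact congrFun (congrArg Prod.snd hy) ⟨i, hi⟩
  set Zy : Finset (Fin 7) := univ.filter (fun i : Fin 7 => evi i y = 0) with hZy
  have hZyc : Zy.card ≤ 3 := mds' y hy0
  have hPZ : P ⊆ Zy := fun i hi => Finset.mem_filter.2 ⟨Finset.mem_univ _, hyP i hi⟩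
  -- the support
  set c : Fin 7 → 𝕜 := fun i => starRingEnd 𝕜 (evi i x * evi i y) with hc
  have hsupp : (univ.filter (fun i : Fin 7 => c i ≠ 0)) = (Z0 ∪ Zy)ᶜ := by
    ext i
    simp only [Finset.mem_filter, Finset.mem_univ, true_and, Finset.mem_compl, Finset.mem_union,
      hZ0, hZy, hc, ne_eq, map_eq_zero, mul_eq_zero]
  have hcc : ((Z0 ∪ Zy)ᶜ).card = 7 - (Z0 ∪ Zy).card := by
    rw [Finset.card_compl, Fintype.card_fin]
  have hu1 : (Z0 ∪ Zy).card ≤ 4 := by
    rcases hP with hP | hP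
    · have : Z0 ∪ Zy = Zy := Finset.union_eq_right.2 (hP.trans hPZ)
      rw [this]
      omega
    · have h1 := Finset.card_union_add_card_inter Z0 Zy
      have h2 : P ⊆ Z0 ∩ Zy := Finset.subset_inter hP hPZ
      have h3 := Finset.card_le_card h2
      omega
  have hu2 : 2 ≤ (Z0 ∪ Zy).card := by
    have h2 : P ⊆ Z0 ∪ Zy := hPZ.trans Finset.subset_union_right
    have h3 := Finset.card_le_card h2
    omega
  refine iso c H hHr (by rw [hsupp, hcc]; omega) (by rw [hsupp, hcc]; omega) ?_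
  intro z hz w hw
  have h1 := hT y z w hyH hz hw
  have h2 := congrArg (starRingEnd 𝕜) h1
  rw [map_sum, map_zero] at h2
  rw [← h2]
  refine Finset.sum_congr rfl fun i _ => ?_
  simp only [hc, map_mul, RCLike.conj_conj]

/-- **`E4` has no norm one projection onto a hyperplane.** -/
theorem noHyp_E4 : NoHyp 𝕜 (E4 𝕜) := by
  intro f x hfx
  by_contra hcon
  push Not at hcon
  have hx : x ≠ 0 := by
    intro h0
    rw [h0, map_zero] at hfx
    exact zero_ne_one hfx
  refine core f x hx fun y hy => ?_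
  have h1 : ∀ t : 𝕜, ∑ i, ‖evi i y‖ ^ 4 ≤ ∑ i, ‖evi i y + t * evi i x‖ ^ 4 := by
    intro t
    have h2 := hcon (y + t • x)
    have h3 : y + t • x - f (y + t • x) • x = y := by
      rw [map_add, map_smul, hy, hfx, smul_eq_mul, mul_one, zero_add]
      abel
    rw [h3, norm_le_iff] at h2
    simpa only [map_add, map_smul, smul_eq_mul] using h2
  exact first_order (fun i => evi i x) (fun i => evi i y) h1

end Pool.Agent.Y249.MB
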