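import Pool.Agent.Y249.MB.Series
import Pool.Agent.Y249.MB.Iso

/-!
# The family for `E ⊕_∞ ℓ_2`
-/

set_option autoImplicit false

open Filter Topology Finset

namespace Pool.Agent.Y249.MB

variable {𝕜 : Type} [RCLike 𝕜]

/-- `ℓ_2` over `𝕜`. -/
abbrev L2 (𝕜 : Type) [RCLike 𝕜] : Type := lp (fun _ : ℕ => 𝕜) 2

section fam

variable {E : Type} [NormedAddCommGroup E] [NormedSpace 𝕜 E]

theorem toReal_two_pos : 0 < (2 : ENNReal).toReal := by norm_num

theorem l2_trunc_le (y : L2 𝕜) (n : ℕ) :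
    ‖∑ i ∈ range n, lp.single (E := fun _ : ℕ => 𝕜) 2 i (y i)‖ ≤ ‖y‖ := by
  have h1 := lp.norm_sum_single (E := fun _ : ℕ => 𝕜) (p := 2) toReal_two_pos (fun i => y i)
    (range n)
  have h2 := lp.sum_rpow_le_norm_rpow (E := fun _ : ℕ => 𝕜) (p := 2) toReal_two_pos y (range n)
  rw [← h1] at h2
  exact (Real.rpow_le_rpow_iff (norm_nonneg _) (norm_nonneg _) toReal_two_pos).1 h2

theorem l2_trunc_tendsto (y : L2 𝕜) :
    Tendsto (fun n : ℕ => ∑ i ∈ range n, lp.single (E := fun _ : ℕ => 𝕜) 2 i (y i)) atTop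
      (𝓝 y) :=
  (lp.hasSum_single (E := fun _ : ℕ => 𝕜) (p := 2) (by norm_num) y).tendsto_sum_nat

/-- Partial sums for a basis of `E`. -/
noncomputable def Tr {d : ℕ} (b : Module.Basis (Fin d) 𝕜 E) (r : ℕ) (x : E) : E :=
  ∑ j ∈ univ.filter (fun j : Fin d => (j : ℕ) < r), b.repr x j • b j

theorem Tr_zero {d : ℕ} (b : Module.Basis (Fin d) 𝕜 E) (x : E) : Tr b 0 x = 0 := by
  unfold Tr
  rw [Finset.filter_false_of_mem (fun j _ => Nat.not_lt_zero _), Finset.sum_empty]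

theorem Tr_full {d : ℕ} (b : Module.Basis (Fin d) 𝕜 E) (x : E) : Tr b d x = x := by
  unfold Tr
  rw [Finset.filter_true_of_mem (fun j _ => j.2), b.sum_repr]

theorem Tr_succ {d : ℕ} (b : Module.Basis (Fin d) 𝕜 E) (x : E) {r : ℕ} (hr : r < d) :
    Tr b (r + 1) x = Tr b r x + b.repr x ⟨r, hr⟩ • b ⟨r, hr⟩ := by
  unfold Tr
  have h : univ.filter (fun j : Fin d => (j : ℕ) < r + 1) =
      insert (⟨r, hr⟩ : Fin d) (univ.filter (fun j : Fin d => (j : ℕ) < r)) := by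
    ext j
    simp only [Finset.mem_filter, Finset.mem_univ, true_and, Finset.mem_insert, Fin.ext_iff]
    omega
  rw [h, Finset.sum_insert (by simp), add_comm]

theorem exists_K {d : ℕ} (b : Module.Basis (Fin d) 𝕜 E) :
    ∃ K : ℝ, 1 ≤ K ∧ ∀ r x, ‖Tr b r x‖ ≤ K * ‖x‖ := by
  have : FiniteDimensional 𝕜 E := b.finiteDimensional_of_finite
  have hC : ∀ j : Fin d, ∃ C : ℝ, 0 ≤ C ∧ ∀ x, ‖b.repr x j‖ ≤ C * ‖x‖ := by
    intro j
    refine ⟨‖LinearMap.toContinuousLinearMap (b.coord j)‖, norm_nonneg _, fun x => ?_⟩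
    exact (LinearMap.toContinuousLinearMap (b.coord j)).le_opNorm x
  choose C hC0 hC using hC
  refine ⟨1 + ∑ j, C j * ‖b j‖, ?_, ?_⟩
  · have : 0 ≤ ∑ j, C j * ‖b j‖ := Finset.sum_nonneg fun j _ => mul_nonneg (hC0 j) (norm_nonneg _)
    linarith
  · intro r x
    unfold Tr
    calc ‖∑ j ∈ univ.filter (fun j : Fin d => (j : ℕ) < r), b.repr x j • b j‖
        ≤ ∑ j ∈ univ.filter (fun j : Fin d => (j : ℕ) < r), ‖b.repr x j • b j‖ :=
          norm_sum_le _ _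
      _ ≤ ∑ j, ‖b.repr x j • b j‖ :=
          Finset.sum_le_sum_of_subset_of_nonneg (Finset.filter_subset _ _)
            fun _ _ _ => norm_nonneg _
      _ ≤ ∑ j, C j * ‖b j‖ * ‖x‖ := by
          refine Finset.sum_le_sum fun j _ => ?_
          rw [norm_smul]
          have := mul_le_mul_of_nonneg_right (hC j x) (norm_nonneg (b j))
          linarith
      _ = (∑ j, C j * ‖b j‖) * ‖x‖ := by rw [Finset.sum_mul]
      _ ≤ (1 + ∑ j, C j * ‖b j‖) * ‖x‖ := by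
          refine mul_le_mul_of_nonneg_right (by linarith) (norm_nonneg _)

/-- The vectors. -/
noncomputable def gv {d : ℕ} (b : Module.Basis (Fin d) 𝕜 E) (k : ℕ) : E × L2 𝕜 :=
  if h : k % (d + 1) < d then (b ⟨k % (d + 1), h⟩, 0)
  else (0, lp.single (E := fun _ : ℕ => 𝕜) 2 (k / (d + 1)) 1)

/-- The functionals. -/
noncomputable def φv {d : ℕ} (b : Module.Basis (Fin d) 𝕜 E) (q : ℝ) (k : ℕ) :
    E × L2 𝕜 →ₗ[𝕜] 𝕜 :=
  if h : k % (d + 1) < d then
    (((1 - q) * q ^ (k / (d + 1)) : ℝ) : 𝕜) •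
      ((b.coord ⟨k % (d + 1), h⟩).comp (LinearMap.fst 𝕜 E (L2 𝕜)))
  else
    { toFun := fun y => y.2 (k / (d + 1))
      map_add' := fun _ _ => rfl
      map_smul' := fun _ _ => rfl }

theorem gv_ne {d : ℕ} (b : Module.Basis (Fin d) 𝕜 E) (k : ℕ) : gv b k ≠ 0 := by
  unfold gv
  split_ifs with h
  · intro h0
    exact b.ne_zero _ (congrArg Prod.fst h0)
  · intro h0
    have h1 := congrArg Prod.snd h0
    have h2 := lp.norm_single (E := fun _ : ℕ => 𝕜) (p := 2) (by norm_num) (k / (d + 1)) (1 : 𝕜)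
    rw [show lp.single (E := fun _ : ℕ => 𝕜) 2 (k / (d + 1)) 1 = 0 from h1, norm_zero,
      norm_one] at h2
    exact zero_ne_one h2

theorem term_lt {d : ℕ} (b : Module.Basis (Fin d) 𝕜 E) (q : ℝ) (y : E × L2 𝕜) (l r : ℕ)
    (hr : r < d) :
    φv b q ((d + 1) * l + r) y • gv b ((d + 1) * l + r) =
      ((((1 - q) * q ^ l : ℝ) : 𝕜) • (b.repr y.1 ⟨r, hr⟩ • b ⟨r, hr⟩), 0) := by
  have h1 : ((d + 1) * l + r) % (d + 1) = r := by
    rw [Nat.mul_add_mod, Nat.mod_eq_of_lt (by omega)]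
  have h2 : ((d + 1) * l + r) / (d + 1) = l := by
    rw [Nat.mul_add_div (by omega), Nat.div_eq_of_lt (by omega), add_zero]
  unfold φv gv
  rw [dif_pos (by rw [h1]; exact hr), dif_pos (by rw [h1]; exact hr)]
  simp only [h1, h2, LinearMap.smul_apply, LinearMap.comp_apply, LinearMap.fst_apply,
    Module.Basis.coord_apply, smul_eq_mul, Prod.smul_mk, smul_zero, mul_smul]

theorem term_last {d : ℕ} (b : Module.Basis (Fin d) 𝕜 E) (q : ℝ) (y : E × L2 𝕜) (l : ℕ) :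
    φv b q ((d + 1) * l + d) y • gv b ((d + 1) * l + d) =
      (0, lp.single (E := fun _ : ℕ => 𝕜) 2 l (y.2 l)) := by
  have h1 : ((d + 1) * l + d) % (d + 1) = d := by
    rw [Nat.mul_add_mod, Nat.mod_eq_of_lt (by omega)]
  have h2 : ((d + 1) * l + d) / (d + 1) = l := by
    rw [Nat.mul_add_div (by omega), Nat.div_eq_of_lt (by omega), add_zero]
  unfold φv gv
  rw [dif_neg (by rw [h1]; exact lt_irrefl _), dif_neg (by rw [h1]; exact lt_irrefl _)]
  simp only [h2, LinearMap.coe_mk, AddHom.coe_mk, Prod.smul_mk, smul_zero]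
  rw [← lp.single_smul, smul_eq_mul, mul_one]

/-- The partial sums. -/
noncomputable def AA {d : ℕ} (b : Module.Basis (Fin d) 𝕜 E) (q : ℝ) (y : E × L2 𝕜) (l r : ℕ) :
    E × L2 𝕜 :=
  ((((1 - q ^ l : ℝ)) : 𝕜) • y.1 + (((1 - q) * q ^ l : ℝ) : 𝕜) • Tr b r y.1,
    ∑ i ∈ range l, lp.single (E := fun _ : ℕ => 𝕜) 2 i (y.2 i))

theorem psum {d : ℕ} (b : Module.Basis (Fin d) 𝕜 E) (q : ℝ) (y : E × L2 𝕜) (l : ℕ) :
    ∀ r, r ≤ d → ∑ k ∈ range ((d + 1) * l + r), φv b q k y • gv b k = AA b q y l r := by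
  induction l with
  | zero =>
    intro r
    induction r with
    | zero =>
      intro _
      simp [AA, Tr_zero]
      rfl
    | succ r ih =>
      intro hr
      rw [← add_assoc, Finset.sum_range_succ, ih (by omega), term_lt b q y 0 r (by omega)]
      unfold AA
      rw [Tr_succ b _ (by omega), smul_add, Prod.mk_add_mk, add_zero, add_assoc]
  | succ l ihl =>
    intro r
    induction r with
    | zero =>
      intro _
      have h0 : (d + 1) * (l + 1) + 0 = (d + 1) * l + d + 1 := by ring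
      rw [h0, Finset.sum_range_succ, ihl d le_rfl, term_last]
      unfold AA
      rw [Tr_full, Tr_zero, smul_zero, add_zero, Prod.mk_add_mk, add_zero,
        Finset.sum_range_succ, ← add_smul]
      congr 2
      push_cast
      ring
    | succ r ih =>
      intro hr
      rw [← add_assoc, Finset.sum_range_succ, ih (by omega), term_lt b q y (l + 1) r (by omega)]
      unfold AA
      rw [Tr_succ b _ (by omega), smul_add, Prod.mk_add_mk, add_zero, add_assoc]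

theorem psum' {d : ℕ} (b : Module.Basis (Fin d) 𝕜 E) (q : ℝ) (y : E × L2 𝕜) (n : ℕ) :
    ∑ k ∈ range n, φv b q k y • gv b k = AA b q y (n / (d + 1)) (n % (d + 1)) := by
  have h := psum b q y (n / (d + 1)) (n % (d + 1)) (by
    have := Nat.mod_lt n (show 0 < d + 1 by omega)
    omega)
  rwa [Nat.div_add_mod] at h

theorem fam_bound {d : ℕ} (b : Module.Basis (Fin d) 𝕜 E) {K : ℝ} (hK1 : 1 ≤ K)
    (hK : ∀ r x, ‖Tr b r x‖ ≤ K * ‖x‖) (y : E × L2 𝕜) (l r : ℕ) :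
    ‖AA b (1 - 1 / K) y l r‖ ≤ ‖y‖ := by
  set q : ℝ := 1 - 1 / K with hq
  have hK0 : 0 < K := by linarith
  have hq0 : 0 ≤ q := by
    rw [hq, sub_nonneg, div_le_one hK0]
    exact hK1
  have hq1 : q ≤ 1 := by
    rw [hq]
    have : 0 ≤ 1 / K := by positivity
    linarith
  have hql0 : 0 ≤ q ^ l := pow_nonneg hq0 l
  have hql1 : q ^ l ≤ 1 := pow_le_one₀ hq0 hq1
  unfold AA
  rw [Prod.norm_mk]
  refine max_le ?_ ?_
  · refine (norm_add_le _ _).trans ?_
    rw [norm_smul, norm_smul, RCLike.norm_ofReal, RCLike.norm_ofReal,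
      abs_of_nonneg (by linarith), abs_of_nonneg (by nlinarith)]
    have h1 := hK r y.1
    have h2 : (1 - q) * K = 1 := by
      rw [hq]
      field_simp
      ring
    have h3 : (1 - q) * q ^ l * ‖Tr b r y.1‖ ≤ (1 - q) * q ^ l * (K * ‖y.1‖) :=
      mul_le_mul_of_nonneg_left h1 (by nlinarith)
    have h4 : (1 - q) * q ^ l * (K * ‖y.1‖) = q ^ l * ‖y.1‖ := by
      calc (1 - q) * q ^ l * (K * ‖y.1‖) = ((1 - q) * K) * (q ^ l * ‖y.1‖) := by ring
        _ = q ^ l * ‖y.1‖ := by rw [h2, one_mul]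
    calc (1 - q ^ l) * ‖y.1‖ + (1 - q) * q ^ l * ‖Tr b r y.1‖
        ≤ (1 - q ^ l) * ‖y.1‖ + q ^ l * ‖y.1‖ := by rw [← h4]; linarith
      _ = ‖y.1‖ := by ring
      _ ≤ ‖y‖ := norm_fst_le y
  · exact (l2_trunc_le y.2 l).trans (norm_snd_le y)

theorem fam_tendsto {d : ℕ} (b : Module.Basis (Fin d) 𝕜 E) {K : ℝ} (hK1 : 1 ≤ K)
    (hK : ∀ r x, ‖Tr b r x‖ ≤ K * ‖x‖) (y : E × L2 𝕜) :
    Tendsto (fun n : ℕ => AA b (1 - 1 / K) y (n / (d + 1)) (n % (d + 1))) atTop (𝓝 y) := by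
  set q : ℝ := 1 - 1 / K with hq
  have hK0 : 0 < K := by linarith
  have hq0 : 0 ≤ q := by
    rw [hq, sub_nonneg, div_le_one hK0]
    exact hK1
  have hq1 : q < 1 := by
    rw [hq]
    have : 0 < 1 / K := by positivity
    linarith
  have hdiv : Tendsto (fun n : ℕ => n / (d + 1)) atTop atTop := Nat.tendsto_div_const_atTop (by omega)
  have hpow : Tendsto (fun n : ℕ => q ^ (n / (d + 1))) atTop (𝓝 0) :=
    (tendsto_pow_atTop_nhds_zero_of_lt_one hq0 hq1).comp hdiv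
  rw [show y = (y.1, y.2) from rfl]
  refine Tendsto.prodMk_nhds ?_ ((l2_trunc_tendsto y.2).comp hdiv)
  have h1 : Tendsto (fun n : ℕ => (((1 - q ^ (n / (d + 1)) : ℝ)) : 𝕜) • y.1) atTop
      (𝓝 ((((1 - 0 : ℝ)) : 𝕜) • y.1)) :=
    ((RCLike.continuous_ofReal.tendsto _).comp (tendsto_const_nhds.sub hpow)).smul_const _
  have h2 : Tendsto (fun n : ℕ => (((1 - q) * q ^ (n / (d + 1)) : ℝ) : 𝕜) •
      Tr b (n % (d + 1)) y.1) atTop (𝓝 0) := by
    rw [tendsto_zero_iff_norm_tendsto_zero]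
    have h3 : Tendsto (fun n : ℕ => (1 - q) * q ^ (n / (d + 1)) * (K * ‖y.1‖)) atTop
        (𝓝 ((1 - q) * 0 * (K * ‖y.1‖))) := (hpow.const_mul _).mul_const _
    rw [mul_zero, zero_mul] at h3
    refine squeeze_zero (fun _ => norm_nonneg _) (fun n => ?_) h3
    have h4 : 0 ≤ (1 - q) * q ^ (n / (d + 1)) :=
      mul_nonneg (by linarith) (pow_nonneg hq0 _)
    rw [norm_smul, RCLike.norm_ofReal, abs_of_nonneg h4]
    exact mul_le_mul_of_nonneg_left (hK _ _) h4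
  have h5 := h1.add h2
  rw [sub_zero, RCLike.ofReal_one, one_smul, add_zero] at h5
  exact h5

/-- `E ⊕_∞ ℓ_2` sits norm one complemented in a space with a monotone basis. -/
theorem exists_ambient [FiniteDimensional 𝕜 E] :
    ∃ (B : Type) (_ : NormedAddCommGroup B) (_ : NormedSpace 𝕜 B) (_ : CompleteSpace B)
      (e : ℕ → B) (J : (E × L2 𝕜) →ₗᵢ[𝕜] B) (P : B →L[𝕜] (E × L2 𝕜)),
      MonoBasis 𝕜 e ∧ ‖P‖ ≤ 1 ∧ ∀ y, P (J y) = y := by
  have hE : CompleteSpace E := FiniteDimensional.complete 𝕜 E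
  obtain ⟨K, hK1, hK⟩ := exists_K (Module.finBasis 𝕜 E)
  refine exists_space (gv (Module.finBasis 𝕜 E)) (gv_ne _) (φv (Module.finBasis 𝕜 E) (1 - 1 / K))
    ?_ ?_
  · intro y
    refine (fam_tendsto (Module.finBasis 𝕜 E) hK1 hK y).congr fun n => ?_
    exact (psum' _ _ _ _).symm
  · intro y n
    rw [psum']
    exact fam_bound _ hK1 hK y _ _

end fam

end Pool.Agent.Y249.MB
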