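import Pool.Agent.Y249.MB.Chain

/-!
# A four-dimensional space without norm one projections onto hyperplanes

The polynomials of degree at most `3` on seven points, with the norm of `ℓ_4^7`.
-/

set_option autoImplicit false

open Filter Topology Finset

namespace Pool.Agent.Y249.MB

variable {𝕜 : Type} [RCLike 𝕜]


instance fact14 : Fact ((1 : ENNReal) ≤ 4) := ⟨by norm_num⟩

/-- The space `ℓ_4^7`. -/
abbrev A7 (𝕜 : Type) [RCLike 𝕜] : Type := PiLp 4 (fun _ : Fin 7 => 𝕜)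

/-- Evaluation of the polynomials of degree at most `3` at `0, ..., 6`. -/
noncomputable def ev4 (𝕜 : Type) [RCLike 𝕜] : Polynomial.degreeLT 𝕜 4 →ₗ[𝕜] A7 𝕜 :=
  (WithLp.linearEquiv 4 𝕜 (Fin 7 → 𝕜)).symm.toLinearMap.comp
    (LinearMap.pi fun i : Fin 7 => (Polynomial.leval ((i : ℕ) : 𝕜)).comp (Submodule.subtype _))

/-- The polynomials of degree at most `3` on the points `0, ..., 6`, as a subspace of `ℓ_4^7`. -/
noncomputable def E4 (𝕜 : Type) [RCLike 𝕜] : Submodule 𝕜 (A7 𝕜) := LinearMap.range (ev4 𝕜)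

theorem ev4_apply (q : Polynomial.degreeLT 𝕜 4) (i : Fin 7) :
    ev4 𝕜 q i = (q : Polynomial 𝕜).eval ((i : ℕ) : 𝕜) := rfl

/-- A nonzero element has at most three zeros. -/
theorem mds (y : E4 𝕜) (hy : y ≠ 0) :
    (univ.filter (fun i : Fin 7 => (y : A7 𝕜) i = 0)).card ≤ 3 := by
  classical
  obtain ⟨y, q, rfl⟩ := y
  by_contra hcon
  push Not at hcon
  apply hy
  have hq : (q : Polynomial 𝕜) = 0 := by
    set s : Finset (Fin 7) := univ.filter (fun i : Fin 7 => (ev4 𝕜 q) i = 0) with hs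
    apply Polynomial.eq_zero_of_degree_lt_of_eval_finset_eq_zero
      (s.image (fun i : Fin 7 => ((i : ℕ) : 𝕜)))
    · have h1 := Polynomial.mem_degreeLT.1 q.2
      refine lt_of_lt_of_le h1 ?_
      rw [Finset.card_image_of_injective]
      · exact_mod_cast hcon
      · intro i j hij
        have h2 : ((i : ℕ) : 𝕜) = ((j : ℕ) : 𝕜) := hij
        exact Fin.ext (by exact_mod_cast h2)
    · intro x hx
      obtain ⟨i, hi, rfl⟩ := Finset.mem_image.1 hx
      rw [hs, Finset.mem_filter] at hi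
      rw [← ev4_apply]
      exact hi.2
  have : q = 0 := Subtype.ext hq
  apply Subtype.ext
  show ev4 𝕜 q = 0
  rw [this, map_zero]

theorem ev4_injective : Function.Injective (ev4 𝕜) := by
  rw [← LinearMap.ker_eq_bot, LinearMap.ker_eq_bot']
  intro q hq
  apply Subtype.ext
  show (q : Polynomial 𝕜) = 0
  classical
  apply Polynomial.eq_zero_of_degree_lt_of_eval_finset_eq_zero
      ((univ : Finset (Fin 7)).image (fun i : Fin 7 => ((i : ℕ) : 𝕜)))
  · have h1 := Polynomial.mem_degreeLT.1 q.2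
    refine lt_of_lt_of_le h1 ?_
    rw [Finset.card_image_of_injective]
    · rw [Finset.card_univ, Fintype.card_fin]
      norm_num
    · intro i j hij
      have h2 : ((i : ℕ) : 𝕜) = ((j : ℕ) : 𝕜) := hij
      exact Fin.ext (by exact_mod_cast h2)
  · intro x hx
    obtain ⟨i, hi, rfl⟩ := Finset.mem_image.1 hx
    rw [← ev4_apply, hq]
    rfl

theorem finrank_E4 : Module.finrank 𝕜 (E4 𝕜) = 4 := by
  have h1 : Module.finrank 𝕜 (Polynomial.degreeLT 𝕜 4) = 4 := by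
    rw [(Polynomial.degreeLTEquiv 𝕜 4).finrank_eq, Module.finrank_fin_fun]
  rw [← h1, E4]
  exact (LinearEquiv.ofInjective (ev4 𝕜) ev4_injective).finrank_eq.symm

instance : FiniteDimensional 𝕜 (E4 𝕜) := Module.finite_of_finrank_pos (by rw [finrank_E4]; norm_num)

instance : Nontrivial (E4 𝕜) := Module.nontrivial_of_finrank_pos (R := 𝕜)
  (by rw [finrank_E4]; norm_num)

/-- The evaluation functionals. -/
noncomputable def evi (i : Fin 7) : E4 𝕜 →ₗ[𝕜] 𝕜 where
  toFun y := (y : A7 𝕜) i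
  map_add' _ _ := rfl
  map_smul' _ _ := rfl

theorem evi_apply (i : Fin 7) (y : E4 𝕜) : evi i y = (y : A7 𝕜) i := rfl

theorem mds' (y : E4 𝕜) (hy : y ≠ 0) :
    (univ.filter (fun i : Fin 7 => evi i y = 0)).card ≤ 3 := mds y hy

theorem norm_le_iff (y z : E4 𝕜) :
    ‖y‖ ≤ ‖z‖ ↔ ∑ i, ‖evi i y‖ ^ 4 ≤ ∑ i, ‖evi i z‖ ^ 4 := by
  have h : ∀ y : E4 𝕜, ‖y‖ ^ 4 = ∑ i, ‖evi i y‖ ^ 4 := by
    intro y
    have h1 : ‖y‖ = (∑ i, ‖evi i y‖ ^ 4) ^ (1 / ((4 : ℕ) : ℝ)) :=
      PiLp.norm_eq_of_nat 4 (by norm_num) (y : A7 𝕜)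
    rw [h1, ← Real.rpow_natCast, ← Real.rpow_mul (by positivity)]
    norm_num
  rw [← h, ← h]
  exact (pow_le_pow_iff_left₀ (norm_nonneg _) (norm_nonneg _) (by norm_num)).symm

/-- The first order condition. -/
theorem first_order (x y : Fin 7 → 𝕜)
    (hmin : ∀ t : 𝕜, ∑ i, ‖y i‖ ^ 4 ≤ ∑ i, ‖y i + t * x i‖ ^ 4) :
    ∑ i, x i * y i * starRingEnd 𝕜 (y i) * starRingEnd 𝕜 (y i) = 0 := by
  set Φ : 𝕜 := ∑ i, x i * y i * starRingEnd 𝕜 (y i) * starRingEnd 𝕜 (y i) with hΦ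
  have key : ∀ t : 𝕜, ∑ i, ‖y i‖ ^ 2 * RCLike.re (inner 𝕜 (y i) (t * x i)) = 0 := by
    intro t
    have hexp : ∀ s : ℝ, ∀ i, ‖y i + ((s : ℝ) : 𝕜) * t * x i‖ ^ 4 =
        (‖y i‖ ^ 2 + s * (2 * RCLike.re (inner 𝕜 (y i) (t * x i))) + s ^ 2 * ‖t * x i‖ ^ 2) ^ 2 := by
      intro s i
      have h1 : ‖y i + ((s : ℝ) : 𝕜) * t * x i‖ ^ 2 =
          ‖y i‖ ^ 2 + s * (2 * RCLike.re (inner 𝕜 (y i) (t * x i))) + s ^ 2 * ‖t * x i‖ ^ 2 := by
        rw [@norm_add_sq 𝕜 𝕜]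
        have e1 : ((s : ℝ) : 𝕜) * t * x i = ((s : ℝ) : 𝕜) • (t * x i) := by
          rw [smul_eq_mul, mul_assoc]
        rw [e1, inner_smul_right, RCLike.re_ofReal_mul, norm_smul, RCLike.norm_ofReal, mul_pow,
          sq_abs]
        ring
      rw [← h1]
      ring
    set F : ℝ → ℝ := fun s => ∑ i,
      (‖y i‖ ^ 2 + s * (2 * RCLike.re (inner 𝕜 (y i) (t * x i))) + s ^ 2 * ‖t * x i‖ ^ 2) ^ 2 with hF
    have hF0 : ∀ s, F 0 ≤ F s := by
      intro s
      have h2 := hmin (((s : ℝ) : 𝕜) * t)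
      have h3 : F s = ∑ i, ‖y i + ((s : ℝ) : 𝕜) * t * x i‖ ^ 4 :=
        Finset.sum_congr rfl fun i _ => (hexp s i).symm
      have h4 : F 0 = ∑ i, ‖y i‖ ^ 4 := by
        rw [hF]
        refine Finset.sum_congr rfl fun i _ => ?_
        ring
      rw [h3, h4]
      exact h2
    have hder : HasDerivAt F (∑ i, 2 * (‖y i‖ ^ 2) *
        (2 * RCLike.re (inner 𝕜 (y i) (t * x i)))) 0 := by
      rw [hF]
      apply HasDerivAt.fun_sum
      intro i _
      have h5 : HasDerivAt (fun s : ℝ => ‖y i‖ ^ 2 + s * (2 * RCLike.re (inner 𝕜 (y i) (t * x i))) +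
          s ^ 2 * ‖t * x i‖ ^ 2) (0 + 1 * (2 * RCLike.re (inner 𝕜 (y i) (t * x i))) +
          (2 * (0 : ℝ)) * ‖t * x i‖ ^ 2) 0 := by
        refine ((hasDerivAt_const (0 : ℝ) (‖y i‖ ^ 2)).add
          ((hasDerivAt_id (0 : ℝ)).mul_const _)).add (HasDerivAt.mul_const ?_ _)
        simpa using hasDerivAt_pow 2 (0 : ℝ)
      refine (h5.pow 2).congr_deriv ?_
      simp
    have h6 : IsLocalMin F 0 := Filter.Eventually.of_forall hF0
    have h7 := h6.hasDerivAt_eq_zero hder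
    have h8 : ∑ i, 2 * (‖y i‖ ^ 2) * (2 * RCLike.re (inner 𝕜 (y i) (t * x i))) =
        4 * ∑ i, ‖y i‖ ^ 2 * RCLike.re (inner 𝕜 (y i) (t * x i)) := by
      rw [Finset.mul_sum]
      refine Finset.sum_congr rfl fun i _ => ?_
      ring
    rw [h8] at h7
    linarith
  have h9 := key (starRingEnd 𝕜 Φ)
  have h10 : ∑ i, ‖y i‖ ^ 2 * RCLike.re (inner 𝕜 (y i) (starRingEnd 𝕜 Φ * x i)) =
      RCLike.re (starRingEnd 𝕜 Φ * Φ) := by
    have e0 : RCLike.re (starRingEnd 𝕜 Φ * Φ) =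
        ∑ i, RCLike.re (starRingEnd 𝕜 Φ * (x i * y i * starRingEnd 𝕜 (y i) * starRingEnd 𝕜 (y i))) := by
      conv_lhs => rw [hΦ, Finset.mul_sum]
      rw [map_sum (RCLike.re : 𝕜 →+ ℝ), ← hΦ]
    rw [e0]
    refine Finset.sum_congr rfl fun i _ => ?_
    rw [RCLike.inner_apply, ← RCLike.re_ofReal_mul, RCLike.ofReal_pow, ← RCLike.mul_conj]
    congr 1
    ring
  rw [h10, RCLike.conj_mul, ← RCLike.ofReal_pow, RCLike.ofReal_re] at h9
  exact norm_eq_zero.1 (by nlinarith [norm_nonneg Φ] : ‖Φ‖ = 0)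

/-- Polarisation. -/
theorem polar (x : Fin 7 → 𝕜) (H : Submodule 𝕜 (E4 𝕜))
    (h : ∀ y ∈ H, ∑ i, x i * evi i y * starRingEnd 𝕜 (evi i y) * starRingEnd 𝕜 (evi i y) = 0)
    (y z w : E4 𝕜) (hy : y ∈ H) (hz : z ∈ H) (hw : w ∈ H) :
    ∑ i, x i * evi i y * starRingEnd 𝕜 (evi i z) * starRingEnd 𝕜 (evi i w) = 0 := by
  set T : E4 𝕜 → E4 𝕜 → E4 𝕜 → 𝕜 := fun y z w =>
    ∑ i, x i * evi i y * starRingEnd 𝕜 (evi i z) * starRingEnd 𝕜 (evi i w) with hT
  have sym : ∀ y ∈ H, ∀ z ∈ H, ∀ w ∈ H, T y z w + T z y w + T w y z = 0 := by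
    intro y hy z hz w hw
    have e1 : 2 * (T y z w + T z y w + T w y z) =
        ∑ i, x i * evi i (y + z + w) * starRingEnd 𝕜 (evi i (y + z + w)) * starRingEnd 𝕜 (evi i (y + z + w))
        - ∑ i, x i * evi i (y + z) * starRingEnd 𝕜 (evi i (y + z)) * starRingEnd 𝕜 (evi i (y + z))
        - ∑ i, x i * evi i (y + w) * starRingEnd 𝕜 (evi i (y + w)) * starRingEnd 𝕜 (evi i (y + w))
        - ∑ i, x i * evi i (z + w) * starRingEnd 𝕜 (evi i (z + w)) * starRingEnd 𝕜 (evi i (z + w))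
        + ∑ i, x i * evi i y * starRingEnd 𝕜 (evi i y) * starRingEnd 𝕜 (evi i y)
        + ∑ i, x i * evi i z * starRingEnd 𝕜 (evi i z) * starRingEnd 𝕜 (evi i z)
        + ∑ i, x i * evi i w * starRingEnd 𝕜 (evi i w) * starRingEnd 𝕜 (evi i w) := by
      rw [hT]
      simp only [← Finset.sum_sub_distrib, ← Finset.sum_add_distrib, Finset.mul_sum, map_add]
      refine Finset.sum_congr rfl fun i _ => ?_
      ring
    rw [h _ (H.add_mem (H.add_mem hy hz) hw), h _ (H.add_mem hy hz), h _ (H.add_mem hy hw),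
      h _ (H.add_mem hz hw), h _ hy, h _ hz, h _ hw] at e1
    have e2 : (2 : 𝕜) * (T y z w + T z y w + T w y z) = 0 := by rw [e1]; ring
    exact (mul_eq_zero.1 e2).resolve_left (by norm_num)
  rcases RCLike.I_mul_I_ax (K := 𝕜) with hI | hI
  · -- trivial conjugation
    have hc : ∀ t : 𝕜, starRingEnd 𝕜 t = t := by
      intro t
      rw [RCLike.conj_eq_re_sub_im, hI, mul_zero, sub_zero]
      conv_rhs => rw [← RCLike.re_add_im t, hI, mul_zero, add_zero]
    have h1 := sym y hy z hz w hw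
    have h2 : T z y w = T y z w := by
      rw [hT]
      refine Finset.sum_congr rfl fun i _ => ?_
      rw [hc, hc, hc]
      ring
    have h3 : T w y z = T y z w := by
      rw [hT]
      refine Finset.sum_congr rfl fun i _ => ?_
      rw [hc, hc, hc]
      ring
    rw [h2, h3] at h1
    have h4 : (3 : 𝕜) * T y z w = 0 := by rw [← h1]; ring
    exact (mul_eq_zero.1 h4).resolve_left (by norm_num)
  · have hI0 : (RCLike.I : 𝕜) ≠ 0 := by
      intro h0
      rw [h0, mul_zero] at hI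
      exact absurd hI.symm (by norm_num)
    have h1 := sym y hy z hz w hw
    have h2 := sym ((RCLike.I : 𝕜) • y) (H.smul_mem _ hy) z hz w hw
    have e1 : T ((RCLike.I : 𝕜) • y) z w = RCLike.I * T y z w := by
      rw [hT]
      simp only [Finset.mul_sum, map_smul, smul_eq_mul]
      refine Finset.sum_congr rfl fun i _ => ?_
      ring
    have e2 : T z ((RCLike.I : 𝕜) • y) w = -(RCLike.I * T z y w) := by
      rw [hT]
      simp only [Finset.mul_sum, map_smul, smul_eq_mul, map_mul, RCLike.conj_I,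
        ← Finset.sum_neg_distrib]
      refine Finset.sum_congr rfl fun i _ => ?_
      ring
    have e3 : T w ((RCLike.I : 𝕜) • y) z = -(RCLike.I * T w y z) := by
      rw [hT]
      simp only [Finset.mul_sum, map_smul, smul_eq_mul, map_mul, RCLike.conj_I,
        ← Finset.sum_neg_distrib]
      refine Finset.sum_congr rfl fun i _ => ?_
      ring
    rw [e1, e2, e3] at h2
    have h3 : (RCLike.I : 𝕜) * (2 * T y z w) = 0 := by
      have e4 : (RCLike.I : 𝕜) * (2 * T y z w) =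
          RCLike.I * (T y z w + T z y w + T w y z) +
            (RCLike.I * T y z w + -(RCLike.I * T z y w) + -(RCLike.I * T w y z)) := by ring
      rw [e4, h1, h2]
      ring
    have h4 := (mul_eq_zero.1 h3).resolve_left hI0
    exact (mul_eq_zero.1 h4).resolve_left (by norm_num)

end Pool.Agent.Y249.MB
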