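import Pool.Agent.Y249.MB.Chain

/-!
# Embedding into a space with a monotone basis
-/

set_option autoImplicit false

open Filter Topology OnePoint

namespace Pool.Agent.Y249.MB

variable {𝕜 : Type} [RCLike 𝕜] {G : Type} [NormedAddCommGroup G] [NormedSpace 𝕜 G]

/-- Convergent sequences whose increments lie on given lines. -/
def BS (𝕜 : Type) [RCLike 𝕜] {G : Type} [NormedAddCommGroup G] [NormedSpace 𝕜 G] (g : ℕ → G) :
    Submodule 𝕜 C(OnePoint ℕ, G) where
  carrier := {s | s ((0 : ℕ) : OnePoint ℕ) = 0 ∧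
    ∀ k : ℕ, s ((k + 1 : ℕ) : OnePoint ℕ) - s (k : OnePoint ℕ) ∈ Submodule.span 𝕜 {g k}}
  zero_mem' := by
    refine ⟨rfl, fun k => ?_⟩
    simp
  add_mem' := by
    rintro s t ⟨hs0, hs⟩ ⟨ht0, ht⟩
    refine ⟨by simp [hs0, ht0], fun k => ?_⟩
    have := Submodule.add_mem _ (hs k) (ht k)
    simp only [ContinuousMap.add_apply]
    rwa [add_sub_add_comm]
  smul_mem' := by
    rintro c s ⟨hs0, hs⟩
    refine ⟨by simp [hs0], fun k => ?_⟩
    have := Submodule.smul_mem _ c (hs k)
    simp only [ContinuousMap.smul_apply]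
    rwa [← smul_sub]

theorem mem_BS {g : ℕ → G} {s : C(OnePoint ℕ, G)} :
    s ∈ BS 𝕜 g ↔ s ((0 : ℕ) : OnePoint ℕ) = 0 ∧
      ∀ k : ℕ, s ((k + 1 : ℕ) : OnePoint ℕ) - s (k : OnePoint ℕ) ∈ Submodule.span 𝕜 {g k} :=
  Iff.rfl

theorem isClosed_BS (g : ℕ → G) : IsClosed (BS 𝕜 g : Set C(OnePoint ℕ, G)) := by
  have h : (BS 𝕜 g : Set C(OnePoint ℕ, G)) =
      {s | s ((0 : ℕ) : OnePoint ℕ) = 0} ∩ ⋂ k : ℕ,
        {s : C(OnePoint ℕ, G) | s ((k + 1 : ℕ) : OnePoint ℕ) - s (k : OnePoint ℕ) ∈
          (Submodule.span 𝕜 {g k} : Set G)} := by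
    ext s
    rw [Set.mem_inter_iff, Set.mem_iInter]
    exact Iff.rfl
  rw [h]
  refine IsClosed.inter (isClosed_eq (continuous_eval_const _) continuous_const)
    (isClosed_iInter fun k => ?_)
  exact (Submodule.closed_of_finiteDimensional (Submodule.span 𝕜 {g k})).preimage
    ((continuous_eval_const _).sub (continuous_eval_const _))

/-- The basis vectors. -/
noncomputable def bv (g : ℕ → G) (k : ℕ) : C(OnePoint ℕ, G) :=
  OnePoint.continuousMapMkNat (fun n => if k < n then g k else 0) (g k)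
    (tendsto_const_nhds.congr' (by
      filter_upwards [eventually_gt_atTop k] with n hn
      rw [if_pos hn]))

theorem bv_coe (g : ℕ → G) (k n : ℕ) : bv g k (n : OnePoint ℕ) = if k < n then g k else 0 := rfl

theorem bv_infty (g : ℕ → G) (k : ℕ) : bv g k ∞ = g k := rfl

theorem bv_mem (g : ℕ → G) (k : ℕ) : bv g k ∈ BS 𝕜 g := by
  refine ⟨by rw [bv_coe, if_neg (Nat.not_lt_zero _)], fun m => ?_⟩
  rw [bv_coe, bv_coe]
  rcases lt_trichotomy k m with h | h | h
  · rw [if_pos h, if_pos (by omega), sub_self]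
    exact Submodule.zero_mem _
  · rw [if_pos (by omega), if_neg (by omega), sub_zero, h]
    exact Submodule.mem_span_singleton_self _
  · rw [if_neg (by omega), if_neg (by omega), sub_self]
    exact Submodule.zero_mem _

/-- The basis vectors in `BS`. -/
noncomputable def bb (𝕜 : Type) [RCLike 𝕜] {G : Type} [NormedAddCommGroup G] [NormedSpace 𝕜 G]
    (g : ℕ → G) (k : ℕ) : BS 𝕜 g := ⟨bv g k, bv_mem g k⟩

/-- Values of the partial sums. -/
theorem psum_coe (g : ℕ → G) (a : ℕ → 𝕜) (n m : ℕ) :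
    ((∑ k ∈ Finset.range n, a k • bb 𝕜 g k : BS 𝕜 g) : C(OnePoint ℕ, G)) (m : OnePoint ℕ) =
      ∑ k ∈ Finset.range (min n m), a k • g k := by
  rw [Submodule.coe_sum, ContinuousMap.sum_apply]
  have h1 : ∀ k ∈ Finset.range n, ((a k • bb 𝕜 g k : BS 𝕜 g) : C(OnePoint ℕ, G)) (m : OnePoint ℕ) =
      if k < m then a k • g k else 0 := by
    intro k _
    rw [Submodule.coe_smul, ContinuousMap.smul_apply]
    show a k • bv g k (m : OnePoint ℕ) = _
    rw [bv_coe]
    split_ifs
    · rfl
    · rw [smul_zero]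
  rw [Finset.sum_congr rfl h1, ← Finset.sum_filter]
  refine Finset.sum_congr ?_ fun _ _ => rfl
  ext k
  simp only [Finset.mem_filter, Finset.mem_range]
  omega

theorem psum_infty (g : ℕ → G) (a : ℕ → 𝕜) (n : ℕ) :
    ((∑ k ∈ Finset.range n, a k • bb 𝕜 g k : BS 𝕜 g) : C(OnePoint ℕ, G)) ∞ =
      ∑ k ∈ Finset.range n, a k • g k := by
  rw [Submodule.coe_sum, ContinuousMap.sum_apply]
  rfl

theorem mono_BS {g : ℕ → G} (hg : ∀ k, g k ≠ 0) : MonoBasis 𝕜 (bb 𝕜 g) := by
  constructor
  · intro s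
    have hs := s.2
    rw [mem_BS] at hs
    obtain ⟨hs0, hs⟩ := hs
    have hex : ∀ k : ℕ, ∃ a : 𝕜, a • g k =
        (s : C(OnePoint ℕ, G)) ((k + 1 : ℕ) : OnePoint ℕ) -
          (s : C(OnePoint ℕ, G)) (k : OnePoint ℕ) :=
      fun k => Submodule.mem_span_singleton.1 (hs k)
    choose a ha using hex
    have hsum : ∀ m : ℕ, ∑ k ∈ Finset.range m, a k • g k =
        (s : C(OnePoint ℕ, G)) (m : OnePoint ℕ) := by
      intro m
      rw [Finset.sum_congr rfl fun k _ => ha k]
      rw [Finset.sum_range_sub (fun m : ℕ => (s : C(OnePoint ℕ, G)) (m : OnePoint ℕ)) m, hs0,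
        sub_zero]
    refine ⟨a, ?_, ?_⟩
    · -- convergence
      show Tendsto (fun n : ℕ => ∑ i ∈ Finset.range n, a i • bb 𝕜 g i) atTop (𝓝 s)
      rw [Metric.tendsto_atTop]
      intro ε hε
      have hlim : Tendsto (fun n : ℕ => (s : C(OnePoint ℕ, G)) (n : OnePoint ℕ)) atTop
          (𝓝 ((s : C(OnePoint ℕ, G)) ∞)) :=
        (OnePoint.continuous_iff_from_nat _).1 (s : C(OnePoint ℕ, G)).continuous
      rw [Metric.tendsto_atTop] at hlim
      obtain ⟨N, hN⟩ := hlim (ε / 4) (by positivity)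
      refine ⟨N, fun n hn => ?_⟩
      rw [dist_eq_norm]
      have hle : ‖(∑ i ∈ Finset.range n, a i • bb 𝕜 g i : BS 𝕜 g) - s‖ ≤ ε / 2 := by
        rw [Submodule.coe_norm, Submodule.coe_sub, ContinuousMap.norm_le _ (by positivity)]
        intro x
        rw [ContinuousMap.sub_apply]
        induction x using OnePoint.rec with
        | infty =>
          rw [psum_infty, hsum, ← dist_eq_norm]
          have := hN n hn
          linarith
        | coe m =>
          rw [psum_coe, hsum]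
          rcases le_total m n with h | h
          · rw [min_eq_right h, sub_self, norm_zero]
            positivity
          · rw [min_eq_left h, ← dist_eq_norm]
            have h1 := hN n hn
            have h2 := hN m (hn.trans h)
            have h3 := dist_triangle_right ((s : C(OnePoint ℕ, G)) (n : OnePoint ℕ))
              ((s : C(OnePoint ℕ, G)) (m : OnePoint ℕ)) ((s : C(OnePoint ℕ, G)) ∞)
            linarith
      linarith
    · -- uniqueness
      intro a' ha'
      funext m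
      have hev : ∀ x : OnePoint ℕ, Tendsto (fun n : ℕ =>
          ((∑ i ∈ Finset.range n, a' i • bb 𝕜 g i : BS 𝕜 g) : C(OnePoint ℕ, G)) x) atTop
          (𝓝 ((s : C(OnePoint ℕ, G)) x)) := by
        intro x
        have hc : Continuous fun t : BS 𝕜 g => (t : C(OnePoint ℕ, G)) x :=
          (continuous_eval_const x).comp continuous_subtype_val
        exact (hc.tendsto s).comp ha'
      have hval : ∀ m : ℕ, ∑ k ∈ Finset.range m, a' k • g k =
          (s : C(OnePoint ℕ, G)) (m : OnePoint ℕ) := by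
        intro m
        refine tendsto_nhds_unique (tendsto_const_nhds.congr' ?_) (hev (m : OnePoint ℕ))
        filter_upwards [eventually_ge_atTop m] with n hn
        rw [psum_coe, min_eq_right hn]
      have h1 := hval (m + 1)
      rw [Finset.sum_range_succ, hval m, ← hsum (m + 1), Finset.sum_range_succ, hsum m] at h1
      have h2 := add_left_cancel h1
      exact smul_left_injective 𝕜 (hg m) h2
  · intro a n m hnm
    rw [Submodule.coe_norm, ContinuousMap.norm_le _ (norm_nonneg _)]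
    intro x
    have key : ∀ N : ℕ, N ≤ m → ‖∑ k ∈ Finset.range N, a k • g k‖ ≤
        ‖(∑ i ∈ Finset.range m, a i • bb 𝕜 g i : BS 𝕜 g)‖ := by
      intro N hN
      have h1 := ContinuousMap.norm_coe_le_norm
        ((∑ i ∈ Finset.range m, a i • bb 𝕜 g i : BS 𝕜 g) : C(OnePoint ℕ, G)) (N : OnePoint ℕ)
      rw [psum_coe, min_eq_right hN] at h1
      exact h1
    induction x using OnePoint.rec with
    | infty =>
      rw [psum_infty]
      exact key n hnm
    | coe k =>
      rw [psum_coe]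
      exact key _ ((min_le_left _ _).trans hnm)

/-- **Embedding.** -/
theorem exists_space [CompleteSpace G] (g : ℕ → G) (hg : ∀ k, g k ≠ 0) (φ : ℕ → G →ₗ[𝕜] 𝕜)
    (h1 : ∀ y, Tendsto (fun n : ℕ => ∑ k ∈ Finset.range n, φ k y • g k) atTop (𝓝 y))
    (h2 : ∀ y n, ‖∑ k ∈ Finset.range n, φ k y • g k‖ ≤ ‖y‖) :
    ∃ (B : Type) (_ : NormedAddCommGroup B) (_ : NormedSpace 𝕜 B) (_ : CompleteSpace B)
      (e : ℕ → B) (J : G →ₗᵢ[𝕜] B) (P : B →L[𝕜] G),
      MonoBasis 𝕜 e ∧ ‖P‖ ≤ 1 ∧ ∀ y, P (J y) = y := by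
  have hcomp : CompleteSpace (BS 𝕜 g) := (isClosed_BS (𝕜 := 𝕜) g).completeSpace_coe
  -- the embedding
  let j : G → C(OnePoint ℕ, G) := fun y =>
    OnePoint.continuousMapMkNat (fun n => ∑ k ∈ Finset.range n, φ k y • g k) y (h1 y)
  have jcoe : ∀ y (n : ℕ), j y (n : OnePoint ℕ) = ∑ k ∈ Finset.range n, φ k y • g k :=
    fun y n => rfl
  have jinf : ∀ y, j y ∞ = y := fun y => rfl
  have jmem : ∀ y, j y ∈ BS 𝕜 g := by
    intro y
    rw [mem_BS]
    refine ⟨by rw [jcoe]; simp, fun k => ?_⟩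
    rw [jcoe, jcoe, Finset.sum_range_succ, add_sub_cancel_left]
    exact Submodule.smul_mem _ _ (Submodule.mem_span_singleton_self _)
  let J₀ : G →ₗ[𝕜] BS 𝕜 g :=
    { toFun := fun y => ⟨j y, jmem y⟩
      map_add' := by
        intro x y
        apply Subtype.ext
        apply ContinuousMap.ext
        intro t
        induction t using OnePoint.rec with
        | infty => rfl
        | coe n =>
          show j (x + y) (n : OnePoint ℕ) = j x (n : OnePoint ℕ) + j y (n : OnePoint ℕ)
          rw [jcoe, jcoe, jcoe, ← Finset.sum_add_distrib]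
          exact Finset.sum_congr rfl fun k _ => by rw [map_add, add_smul]
      map_smul' := by
        intro c x
        apply Subtype.ext
        apply ContinuousMap.ext
        intro t
        induction t using OnePoint.rec with
        | infty => rfl
        | coe n =>
          show j (c • x) (n : OnePoint ℕ) = c • j x (n : OnePoint ℕ)
          rw [jcoe, jcoe, Finset.smul_sum]
          exact Finset.sum_congr rfl fun k _ => by rw [_root_.map_smul, smul_assoc] }
  have hJ : ∀ y, ‖J₀ y‖ = ‖y‖ := by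
    intro y
    show ‖j y‖ = ‖y‖
    apply le_antisymm
    · rw [ContinuousMap.norm_le _ (norm_nonneg _)]
      intro t
      induction t using OnePoint.rec with
      | infty => rw [jinf]
      | coe n =>
        rw [jcoe]
        exact h2 y n
    · have := ContinuousMap.norm_coe_le_norm (j y) ∞
      rwa [jinf] at this
  let P₀ : BS 𝕜 g →ₗ[𝕜] G :=
    { toFun := fun s => (s : C(OnePoint ℕ, G)) ∞
      map_add' := fun _ _ => rfl
      map_smul' := fun _ _ => rfl }
  have hP : ∀ s, ‖P₀ s‖ ≤ 1 * ‖s‖ := by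
    intro s
    rw [one_mul]
    exact ContinuousMap.norm_coe_le_norm (s : C(OnePoint ℕ, G)) ∞
  refine ⟨BS 𝕜 g, inferInstance, inferInstance, hcomp, bb 𝕜 g, ⟨J₀, hJ⟩,
    P₀.mkContinuous 1 hP, mono_BS hg, ?_, ?_⟩
  · exact LinearMap.mkContinuous_norm_le _ zero_le_one hP
  · intro y
    rfl

end Pool.Agent.Y249.MB
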